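import Pool.Agent.MF11.AE3

/-!
# Long coverings are almost exact

Choose one class `a p` modulo `p` for every prime `p` of a finite set `P` of primes, `k` in number. Iwaniec's theorem
says that the classes cannot cover `[1, y]` if `y` is larger than `k ^ (2 + o(1))`, and nothing better than the exponent
`2` is known. The theorem describes the coverings with `y ≥ k ^ (1 + θ)`. Let `S` be the set of the integers of `[1, y]`
which are not covered by the classes modulo the primes `p` with `p ^ 4 ≤ y`, and `L = log (1 / θ) / log 3 + ε`, which is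
small if `θ` is close to `1`. Up to a proportion `L`, every element of `S` is covered exactly once, the class modulo `q`
contains `C / (q log (y / q))` elements of `S` for every larger prime `q ≤ y ^ (1 / (1 + θ))`, and these primes all
belong to `P`.
-/

namespace Pool.Agent.Results.MP_d4a901_nt.AlmostExactCoverings

open Finset

/-- For `0 < θ < 1` and `ε > 0` there are `c > 0` and `y₀` such that for all `y ≥ y₀`, all finite sets `P` of primes
with `|P| ^ (1 + θ) ≤ y` and all choices `a` of one class `a p` modulo `p` for every `p` in `P` the following holds. Let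
`S` be the set of the integers `1 ≤ m ≤ y` which lie in none of the classes `a p` modulo `p` with `p ^ 4 ≤ y`, let `Q` be
the set of the primes `q` with `q ^ (1 + θ) ≤ y < q ^ 4`, and put `L = log (1 / θ) / log 3 + ε`. Then `S` has at least
`c y / log y` elements, the average over `S` of the number of classes which contain `m` is at most `1 + L`, and there is
`C > 0` such that for every `q` in `Q` the number of elements of `S` in the class modulo `q` (zero if `q` is not in `P`)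
is at most `C / (q log (y / q))`, and the sum of `C / (q log (y / q))` over `Q` is at most `(1 + L) |S|`. If every
integer of `[1, y]` lies in one of the classes, then at least `(1 - L) |S|` elements of `S` lie in exactly one class,
and the sum over `Q` of the differences of `C / (q log (y / q))` and the number of elements of `S` in the class modulo
`q` (zero if `q` is not in `P`) is at most `L |S|`. -/
theorem result (θ ε : ℝ) (hθ : 0 < θ) (hθ1 : θ < 1) (hε : 0 < ε) :
    ∃ (c : ℝ) (y₀ : ℕ), 0 < c ∧ ∀ (P : Finset ℕ) (y : ℕ) (a : ℕ → ℤ) (S Q : Finset ℕ) (L : ℝ),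
      (∀ p ∈ P, p.Prime) → y₀ ≤ y → (P.card : ℝ) ^ (1 + θ) ≤ y →
      (∀ m : ℕ, m ∈ S ↔ (1 ≤ m ∧ m ≤ y) ∧ ∀ p ∈ P, p ^ 4 ≤ y → ¬ (m : ℤ) ≡ a p [ZMOD (p : ℤ)]) →
      (∀ q : ℕ, q ∈ Q ↔ q.Prime ∧ y < q ^ 4 ∧ (q : ℝ) ^ (1 + θ) ≤ y) →
      L = Real.log (1 / θ) / Real.log 3 + ε →
        c * (y / Real.log y) ≤ S.card ∧
        ∑ m ∈ S, ((P.filter fun p : ℕ => (m : ℤ) ≡ a p [ZMOD (p : ℤ)]).card : ℝ) ≤ (1 + L) * S.card ∧
        ∃ C : ℝ, 0 < C ∧
          (∀ q ∈ Q, (if q ∈ P then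
            ((S.filter fun m : ℕ => (m : ℤ) ≡ a q [ZMOD (q : ℤ)]).card : ℝ) else 0) ≤
              C / (q * Real.log (y / q))) ∧
          ∑ q ∈ Q, C / (q * Real.log (y / q)) ≤ (1 + L) * S.card ∧
          ((∀ m : ℕ, 1 ≤ m → m ≤ y → ∃ p ∈ P, (m : ℤ) ≡ a p [ZMOD (p : ℤ)]) →
            (1 - L) * S.card ≤ (S.filter fun m : ℕ =>
              (P.filter fun p : ℕ => (m : ℤ) ≡ a p [ZMOD (p : ℤ)]).card = 1).card ∧
            ∑ q ∈ Q, (C / (q * Real.log (y / q)) - if q ∈ P then
                ((S.filter fun m : ℕ => (m : ℤ) ≡ a q [ZMOD (q : ℤ)]).card : ℝ) else 0) ≤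
              L * S.card) := by
  classical
  obtain ⟨c, hc, y0, h⟩ := MF11.main_ext_all hθ hθ1 hε
  refine ⟨c, y0, hc, fun P y a S Q L hP hy hPy hS hQ hL => ?_⟩
  have hSeq : S = (Ioc 0 y).filter
      (fun m : ℕ => MF11.multE (P.filter fun p => p ^ 4 ≤ y) a m = 0) := by
    ext m
    rw [hS m, mem_filter, mem_Ioc]
    unfold MF11.multE
    rw [card_eq_zero, filter_eq_empty_iff]
    constructor
    · rintro ⟨⟨h3, h4⟩, h5⟩
      exact ⟨⟨h3, h4⟩, fun p hp => h5 p (mem_filter.1 hp).1 (mem_filter.1 hp).2⟩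
    · rintro ⟨⟨h3, h4⟩, h5⟩
      exact ⟨⟨h3, h4⟩, fun p hp hpy => h5 (mem_filter.2 ⟨hp, hpy⟩)⟩
  obtain ⟨h1, h2, C, hC, h6, h7, h8⟩ := h P y a S Q hP hy hPy hSeq hQ
  have hmul : ∀ m : ℕ, MF11.multE P a m = (P.filter fun p : ℕ => (m : ℤ) ≡ a p [ZMOD (p : ℤ)]).card :=
    fun m => rfl
  have hcls : ∀ q : ℕ, MF11.cls S a q = S.filter fun m : ℕ => (m : ℤ) ≡ a q [ZMOD (q : ℤ)] :=
    fun q => rfl
  have e1 : 1 + Real.log (1 / θ) / Real.log 3 + ε = 1 + L := by
    rw [hL]
    ring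
  simp only [hmul, e1] at h2
  simp only [hcls, e1] at h6 h7
  simp only [hmul, hcls, ← hL] at h8
  refine ⟨h1, h2, C, hC, h6, h7, fun hcov => ?_⟩
  have h3 : ∀ m ∈ S, 1 ≤ (P.filter fun p : ℕ => (m : ℤ) ≡ a p [ZMOD (p : ℤ)]).card := by
    intro m hm
    obtain ⟨⟨h4, h5⟩, _⟩ := (hS m).1 hm
    obtain ⟨p, hp, hpm⟩ := hcov m h4 h5
    exact card_pos.2 ⟨p, mem_filter.2 ⟨hp, hpm⟩⟩
  refine ⟨?_, h8 h3⟩
  have h4 : 2 * S.card ≤ ∑ m ∈ S, (P.filter fun p : ℕ => (m : ℤ) ≡ a p [ZMOD (p : ℤ)]).card +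
      (S.filter fun m : ℕ => (P.filter fun p : ℕ => (m : ℤ) ≡ a p [ZMOD (p : ℤ)]).card = 1).card := by
    rw [card_filter, ← sum_add_distrib, mul_comm, ← smul_eq_mul, ← sum_const]
    refine sum_le_sum fun m hm => ?_
    have h5 := h3 m hm
    split_ifs with h6
    · omega
    · omega
  have h5 : (2 : ℝ) * S.card ≤ ∑ m ∈ S, ((P.filter fun p : ℕ => (m : ℤ) ≡ a p [ZMOD (p : ℤ)]).card : ℝ) +
      ((S.filter fun m : ℕ => (P.filter fun p : ℕ => (m : ℤ) ≡ a p [ZMOD (p : ℤ)]).card = 1).card : ℝ) := by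
    exact_mod_cast h4
  linarith

end Pool.Agent.Results.MP_d4a901_nt.AlmostExactCoverings
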