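import Pool.Agent.YX49.Fin2

/-!
# A barrier for coverings of Erdos-Rankin type

The classes `a p` modulo `p`, `p ≤ x` prime, cover `1, ..., y`. Let `c` be an integer in `[1, y]` or at distance `O(x)` from it,
and suppose that the class of `c` is used by almost all of the primes between `z` and `x` (the exceptions have reciprocal sum at most
`L / log x`), by all the primes up to `T`, and by few of the primes between `T` and `z`. Then
`y ≤ x exp (C (sqrt (L log z) + L + log T))`.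
-/

namespace Pool.Agent.Results.MP_d4a901_nt.CommonClassBarrier

open Finset

/-- There is `N` such that for all `K` there are `M`, `C` with the following property. Suppose that the classes
`a p` modulo `p` (`p ≤ x` prime) cover the integers `1, ..., y`, that `1 ≤ T`, `T ^ M ≤ z`, `z ^ N ≤ x`,
that `c` is an integer with `- K x ≤ c ≤ y + K x`, that `a p ≡ c` modulo `p` for all primes `p ≤ T`, that the sum of `1 / p` over
the primes `T < p ≤ z` with `a p ≡ c` is at most `K`, and that the sum of `1 / p` over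
the primes `z < p ≤ x` with `a p ≢ c` is at most `L / log x`, where `L ≥ 1`. Then
`y ≤ x exp (C (sqrt (L log z) + L + log T))`. -/
theorem result : ∃ N : ℕ, ∀ K : ℝ, ∃ (M : ℕ) (C : ℝ),
    ∀ (x y T z : ℕ) (a : ℕ → ℤ) (c : ℤ) (L : ℝ),
      2 ≤ x → 1 ≤ T → T ^ M ≤ z → z ^ N ≤ x → 1 ≤ L →
      -(K * (x : ℝ)) ≤ (c : ℝ) → (c : ℝ) ≤ (y : ℝ) + K * (x : ℝ) →
      (∀ m : ℕ, 1 ≤ m → m ≤ y →
        ∃ p : ℕ, p.Prime ∧ p ≤ x ∧ (m : ℤ) ≡ a p [ZMOD (p : ℤ)]) →
      (∀ p : ℕ, p.Prime → p ≤ T → a p ≡ c [ZMOD (p : ℤ)]) →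
      ∑ p ∈ (Ioc T z).filter (fun p : ℕ => p.Prime ∧ a p ≡ c [ZMOD (p : ℤ)]), (1 : ℝ) / p ≤ K →
      ∑ p ∈ (Ioc z x).filter (fun p : ℕ => p.Prime ∧ ¬ a p ≡ c [ZMOD (p : ℤ)]), (1 : ℝ) / p ≤
        L / Real.log x →
      (y : ℝ) ≤ x * Real.exp (C * (Real.sqrt (L * Real.log z) + L + Real.log T)) := by
  obtain ⟨N, hN, h⟩ := YX49.final
  refine ⟨N, fun K => ?_⟩
  obtain ⟨M, C, hC⟩ := h K
  refine ⟨max M 1, C, ?_⟩
  intro x y T z a c L hx hT hTM hzN hL hc1 hc2 hcov hTa hK hLa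
  have hd : ∀ p : ℕ, ((p : ℤ) ∣ a p - c ↔ a p ≡ c [ZMOD (p : ℤ)]) := by
    intro p
    rw [Int.modEq_iff_dvd, dvd_sub_comm]
  have hTM' : T ^ M ≤ z := (Nat.pow_le_pow_right hT (le_max_left M 1)).trans hTM
  have hTz : T ≤ z := by
    have h1 : T ^ 1 ≤ T ^ max M 1 := Nat.pow_le_pow_right hT (le_max_right M 1)
    rw [pow_one] at h1
    exact h1.trans hTM
  refine hC x y T z a c L hx hT hTM' hTz hzN (by linarith) hc2
    (fun m hm hm2 => hcov m hm hm2) (fun p hp hpT => (hd p).mpr (hTa p hp hpT)) ?_ hL ?_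
  · refine le_trans (le_of_eq ?_) hK
    refine sum_congr ?_ fun _ _ => rfl
    ext p
    unfold YX49.Ze
    rw [mem_filter, mem_filter, hd p]
  · refine le_trans (le_of_eq ?_) hLa
    refine sum_congr ?_ fun _ _ => rfl
    ext p
    unfold YX49.La
    rw [mem_filter, mem_filter, hd p]

end Pool.Agent.Results.MP_d4a901_nt.CommonClassBarrier
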