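import Pool.Agent.HD44.Uni4

/-!
# Random classes, modified afterwards at will on a set of primes of sieve dimension at most one

One class modulo `p` is chosen at random for every prime `p ≤ x`. Then an adversary, who knows all these classes, may change
the classes of the primes in two sets `D` and `S` of his choice: `D` lies below `x ^ α` and has sieve dimension `κ ≤ 1` above
`x ^ c`, while `S` has a weighted sum of reciprocals below `(γ - 2 κ α) / (γ - κ α)`. With probability at least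
`1 - exp (- x ^ c)` no such change leads to a covering of the integers in `[1, x ^ β]`, where `β` is any number above
`α * max (1, 2 κ)` (and `γ` any number between the two).

Special cases: `κ = 1` and `S` empty, where the adversary may change every class modulo a prime up to `x ^ α` and the exponent
is `2 α + ε`; `α = 1` and `κ ≤ 1 / 2`, where the exponent is `1 + ε`; `α = 1` and `κ > 1 / 2`, where it is `2 κ + ε`.
-/

namespace Pool.Agent.Results.MP_d4a901_nt.ModifiedRandomClasses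

open Finset

/-- Let `0 ≤ κ ≤ 1`, `0 < α ≤ γ < β`, `2 κ α < γ`, `ζ > 0` and `A ≥ 0`. There are `c > 0` and `x0` such that for all `x ≥ x0`
the number of choices `a` of one class modulo `p` for every prime `p ≤ x` with the following property is at most
`exp (- x ^ c)` times the number of all choices. There are a choice `b` of classes and finite sets `D` and `S` of natural
numbers such that `b` and `a` agree for all primes `p ≤ x` outside `D` and `S`, the members of `D` are at most `x ^ α` and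
satisfy `∑ 1 / p ≤ κ log (log v / log u) + A / log u` (sum over the `p ∈ D` with `u < p ≤ v`) for all real
`x ^ c ≤ u ≤ v ≤ x ^ α`, the members of `S` are at most `x ^ (β - ζ)`, the sum over `p ∈ S` of
`max (1, γ log x / (β log x - log p)) ^ κ / p` is at most `(γ - 2 κ α) / (γ - κ α) - ζ`, and the classes `b p` modulo `p`
(`p ≤ x` prime) cover all integers `1 ≤ m ≤ x ^ β`. -/
theorem result (κ α β γ ζ A : ℝ) (hκ : 0 ≤ κ) (hκ1 : κ ≤ 1) (hα : 0 < α) (hαγ : α ≤ γ)
    (hγβ : γ < β) (hκγ : 2 * κ * α < γ) (hζ : 0 < ζ) (hA : 0 ≤ A) :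
    ∃ c : ℝ, 0 < c ∧ ∃ x0 : ℕ, ∀ x : ℕ, x0 ≤ x →
      (({a : ∀ p : {p // p ∈ (Ioc 0 x).filter Nat.Prime}, Fin (p : ℕ) |
          ∃ (b : ℕ → ℕ) (D S : Finset ℕ),
            (∀ p : {p // p ∈ (Ioc 0 x).filter Nat.Prime}, (p : ℕ) ∉ D → (p : ℕ) ∉ S →
              b p ≡ (a p : ℕ) [MOD (p : ℕ)]) ∧
            (∀ p ∈ D, (p : ℝ) ≤ (x : ℝ) ^ α) ∧
            (∀ u v : ℝ, (x : ℝ) ^ c ≤ u → u ≤ v → v ≤ (x : ℝ) ^ α →
              ∑ p ∈ D.filter (fun p : ℕ => u < p ∧ (p : ℝ) ≤ v), 1 / (p : ℝ) ≤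
                κ * Real.log (Real.log v / Real.log u) + A / Real.log u) ∧
            (∀ p ∈ S, (p : ℝ) ≤ (x : ℝ) ^ (β - ζ)) ∧
            ∑ p ∈ S, (max 1 (γ * Real.log x / (β * Real.log x - Real.log p))) ^ κ / (p : ℝ) ≤
              (γ - 2 * κ * α) / (γ - κ * α) - ζ ∧
            ∀ m : ℕ, 1 ≤ m → (m : ℝ) ≤ (x : ℝ) ^ β →
              ∃ p : ℕ, p.Prime ∧ p ≤ x ∧ m ≡ b p [MOD p]}).ncard : ℝ) ≤
        Real.exp (-(x : ℝ) ^ c) * ∏ p ∈ (Ioc 0 x).filter Nat.Prime, (p : ℝ) := by
  classical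
  obtain ⟨c, hc, x0, hx0⟩ := HD44.tuni κ α β γ ζ A hκ hκ1 hα hαγ hγβ hκγ hζ hA
  refine ⟨c, hc, max x0 2, fun x hx => ?_⟩
  have hx2 : 2 ≤ x := (le_max_right _ _).trans hx
  have hx1 : (1 : ℝ) < x := by exact_mod_cast (by omega : 1 < x)
  have h1 := hx0 x ((le_max_left _ _).trans hx)
  refine le_trans ?_ h1
  rw [← Set.ncard_coe_finset]
  refine Nat.cast_le.2 (Set.ncard_le_ncard ?_ (Set.toFinite _))
  intro a ha
  simp only [coe_filter, mem_univ, true_and]
  obtain ⟨b, D, S, hab, hD, hdim, hS, hsum, hcov⟩ := ha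
  have hdich : ∀ p : ℕ, p.Prime → p ≤ x → p ∉ D → p ∉ S → p ∈ HD44.Un x a b := by
    intro p hp hpx hpD hpS
    have hpp : p ∈ YX49.prs x := YX49.mem_prs.2 ⟨hp, hpx⟩
    exact (HD44.mem_Un hpp).2 (hab ⟨p, hpp⟩ hpD hpS)
  refine ⟨b, S, hS, ?_, ?_, ?_, ?_⟩
  · intro p hp hpα hpx
    by_contra hcon
    push Not at hcon
    by_cases hpD : p ∈ D
    · exact absurd (hD p hpD) (not_le.2 hpα)
    · exact hcon.1 (hdich p hp hpx hpD hcon.2)
  · refine le_trans (le_of_eq (sum_congr rfl fun p _ => ?_)) hsum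
    rw [mul_one_div]
  · intro u v hu huv _
    have hu1 : 1 < u := lt_of_lt_of_le (Real.one_lt_rpow hx1 hc) hu
    have hlu : 0 < Real.log u := Real.log_pos hu1
    have hA' : 0 ≤ A / Real.log u := by positivity
    -- the changed primes outside `S` lie in `D`
    have hsub : (YX49.prs x).filter (fun p : ℕ => u < p ∧ (p : ℝ) ≤ v ∧ p ∉ HD44.Un x a b ∧ p ∉ S) ⊆
        D.filter (fun p : ℕ => u < p ∧ (p : ℝ) ≤ min v ((x : ℝ) ^ α)) := by
      intro p hp
      obtain ⟨h2, h3, h4, h5, h6⟩ := mem_filter.1 hp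
      obtain ⟨h7, h8⟩ := YX49.mem_prs.1 h2
      have hpD : p ∈ D := by
        by_contra h
        exact h5 (hdich p h7 h8 h h6)
      exact mem_filter.2 ⟨hpD, h3, le_min h4 (hD p hpD)⟩
    have h2 : ∑ p ∈ (YX49.prs x).filter
        (fun p : ℕ => u < p ∧ (p : ℝ) ≤ v ∧ p ∉ HD44.Un x a b ∧ p ∉ S), 1 / (p : ℝ) ≤
        ∑ p ∈ D.filter (fun p : ℕ => u < p ∧ (p : ℝ) ≤ min v ((x : ℝ) ^ α)), 1 / (p : ℝ) :=
      sum_le_sum_of_subset_of_nonneg hsub fun p _ _ => by positivity
    refine h2.trans ?_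
    have hlv : Real.log u ≤ Real.log v := Real.log_le_log (by linarith) huv
    rcases le_or_gt u ((x : ℝ) ^ α) with h3 | h3
    · refine (hdim u (min v ((x : ℝ) ^ α)) hu (le_min huv h3) (min_le_right _ _)).trans ?_
      have hm1 : u ≤ min v ((x : ℝ) ^ α) := le_min huv h3
      have hlm : Real.log u ≤ Real.log (min v ((x : ℝ) ^ α)) := Real.log_le_log (by linarith) hm1
      have hlm2 : Real.log (min v ((x : ℝ) ^ α)) ≤ Real.log v :=
        Real.log_le_log (by linarith) (min_le_left _ _)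
      have h4 : Real.log (Real.log (min v ((x : ℝ) ^ α)) / Real.log u) ≤
          Real.log (Real.log v / Real.log u) :=
        Real.log_le_log (div_pos (by linarith) hlu) (div_le_div_of_nonneg_right hlm2 hlu.le)
      have h5 := mul_le_mul_of_nonneg_left h4 hκ
      linarith
    · have h4 : D.filter (fun p : ℕ => u < p ∧ (p : ℝ) ≤ min v ((x : ℝ) ^ α)) = ∅ := by
        refine filter_false_of_mem fun p _ hcon => ?_
        have h5 := hcon.1
        have h6 := hcon.2.trans (min_le_right _ _)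
        linarith
      rw [h4, sum_empty]
      have h5 : 0 ≤ Real.log (Real.log v / Real.log u) :=
        Real.log_nonneg (by rw [le_div_iff₀ hlu]; linarith)
      positivity
  · intro m hm hmy
    exact hcov m hm ((Nat.le_floor_iff (by positivity)).1 hmy)

end Pool.Agent.Results.MP_d4a901_nt.ModifiedRandomClasses
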