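import Pool.Agent.MF11.FinU
import Pool.Agent.MF11.MainC

/-!
# Many integers lie in few of the classes

Choose one class `a p` modulo `p` for every prime `p` of a finite set of primes. How often can all integers of `[1, y]`
be covered?

(a) For `K ≥ 2` and `ε > 0` and any set of `k` primes, `k` large, if `y ≥ k ^ (1 + θ + ε)` with
`θ = 3 ^ (1 - 2 ^ (K - 1))`, then at least `c y / log k` of the integers of `[1, y]` lie in fewer than `K` of the
classes. So `y ≤ k ^ (4 / 3 + ε)` if all integers of `[1, y]` are covered at least twice, `y ≤ k ^ (28 / 27 + ε)` if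
they are covered at least three times. The primes `p ≤ x` are the case `k = π(x) ≤ x`.

(b) For the primes `p ≤ x`, with `u = 1 + log (log x / log (y / x))`, at least `c u / (1 + log u) y / log y` of the
integers `m` of `[1, y]` lie in at most `log u + C` of the classes, for all choices of the classes and all `y` between
`2 x` and `x ^ 2`. So, if all integers of `[1, y]` are covered at least `K` times, then `K ≤ log u + C`, hence
`y ≤ x ^ (1 + exp (1 - exp (K - C)))`.
-/

namespace Pool.Agent.Results.MP_d4a901_nt.MultipleCoverings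

open Finset

theorem ncard_mult (x : ℕ) (a : ℕ → ℤ) (m : ℕ) :
    {p : ℕ | p.Prime ∧ p ≤ x ∧ (m : ℤ) ≡ a p [ZMOD (p : ℤ)]}.ncard = MF11.mult x a m := by
  unfold MF11.mult
  rw [← Set.ncard_coe_finset]
  congr 1
  ext p
  simp only [coe_filter, mem_Ioc, Set.mem_ofPred_eq]
  constructor
  · rintro ⟨h4, h5, h6⟩
    exact ⟨⟨h4.pos, h5⟩, h4, h6⟩
  · rintro ⟨⟨h3, h4⟩, h5, h6⟩
    exact ⟨h5, h4, h6⟩

/-- (a) For all `K ≥ 2` and `ε > 0` there are `c > 0` and `k₀` such that for every finite set `P` of at least `k₀`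
primes, `k` in number, all `y ≥ k ^ (1 + 3 ^ (1 - 2 ^ (K - 1)) + ε)` and all choices `a` of one class `a p` modulo `p`
for every `p` in `P`, at least `c y / log k` of the integers `1 ≤ m ≤ y` lie in fewer than `K` of the classes.

(b) There are `c > 0` and `C` such that for all `x ≥ 2`, all `y` with `2 x ≤ y ≤ x ^ 2` and all choices `a` of one class
`a p` modulo `p` for every prime `p ≤ x` the following holds. Let `u = 1 + log (log x / log (y / x))`. At least
`c u / (1 + log u) y / log y` of the integers `1 ≤ m ≤ y` lie in at most `log u + C` of the classes `a p` modulo `p`. -/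
theorem result :
    (∀ (K : ℕ) (ε : ℝ), 2 ≤ K → 0 < ε → ∃ (c : ℝ) (k₀ : ℕ), 0 < c ∧
      ∀ (P : Finset ℕ) (y : ℕ) (a : ℕ → ℤ), (∀ p ∈ P, p.Prime) → k₀ ≤ P.card →
        (P.card : ℝ) ^ (1 + 3 / 3 ^ (2 ^ (K - 1)) + ε) ≤ y →
          c * (y / Real.log P.card) ≤
            {m : ℕ | 1 ≤ m ∧ m ≤ y ∧
              (P.filter fun p : ℕ => (m : ℤ) ≡ a p [ZMOD (p : ℤ)]).card < K}.ncard) ∧
    (∃ c C : ℝ, 0 < c ∧ ∀ (x y : ℕ) (a : ℕ → ℤ) (u : ℝ), 2 ≤ x → 2 * x ≤ y → y ≤ x ^ 2 →
      u = 1 + Real.log (Real.log x / Real.log (y / x)) →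
        c * (u / (1 + Real.log u)) * (y / Real.log y) ≤
          {m : ℕ | 1 ≤ m ∧ m ≤ y ∧
            ({p : ℕ | p.Prime ∧ p ≤ x ∧ (m : ℤ) ≡ a p [ZMOD (p : ℤ)]}.ncard : ℝ) ≤
              Real.log u + C}.ncard) := by
  classical
  constructor
  · intro K ε hK hε
    obtain ⟨c, hc, k0, h⟩ := MF11.main_card hK hε
    refine ⟨c, k0, hc, fun P y a hP hk hky => ?_⟩
    have h1 := h P y a hP hk (by
      have h2 : (1 : ℝ) + (MF11.thK K + ε) = 1 + 3 / 3 ^ (2 ^ (K - 1)) + ε := by
        unfold MF11.thK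
        ring
      rw [h2]
      exact hky)
    refine h1.trans (le_of_eq ?_)
    rw [← Set.ncard_coe_finset]
    congr 2
    ext m
    simp only [coe_filter, mem_Ioc, Set.mem_ofPred_eq]
    have h3 : MF11.multP P a m = (P.filter fun p : ℕ => (m : ℤ) ≡ a p [ZMOD (p : ℤ)]).card := by
      unfold MF11.multP
      congr
    rw [h3]
    constructor
    · rintro ⟨⟨h4, h5⟩, h6⟩
      exact ⟨h4, h5, h6⟩
    · rintro ⟨h4, h5, h6⟩
      exact ⟨⟨h4, h5⟩, h6⟩
  · obtain ⟨c, C, hc, h⟩ := MF11.mainU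
    refine ⟨c, C, hc, fun x y a u hx hxy hyx hu => ?_⟩
    have h1 := h x y a hx hxy hyx
    have h2 : 1 + MF11.LL x y = u := by
      rw [hu]
      rfl
    rw [h2] at h1
    refine h1.trans (le_of_eq ?_)
    rw [← Set.ncard_coe_finset]
    congr 2
    ext m
    simp only [coe_filter, mem_Ioc, Set.mem_ofPred_eq, ncard_mult]
    constructor
    · rintro ⟨⟨h4, h5⟩, h6⟩
      exact ⟨h4, h5, h6⟩
    · rintro ⟨h4, h5, h6⟩
      exact ⟨⟨h4, h5⟩, h6⟩

end Pool.Agent.Results.MP_d4a901_nt.MultipleCoverings
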